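import Pool.Agent.H76.NPC.Num
import Pool.Agent.H76.H671R2.ZDefs

/-!
# Encoding of graphs by adjacency matrices
-/

namespace Pool.Agent.NPC.R671

theorem adjMatrix_inj {n : ℕ} {G H : SimpleGraph (Fin n)} (h : adjMatrix G = adjMatrix H) :
    G = H := by
  ext i j
  unfold adjMatrix at h
  have h1 := List.ofFn_injective h
  have h2 := List.ofFn_injective (congrFun h1 i)
  have h3 := congrFun h2 j
  simpa using h3

/-- The graph on `Fin N` given by a list of labels and an adjacency function of labels. -/
def listGraph {Λ : Type} (vs : List Λ) (ad : Λ → Λ → Bool) (hs : ∀ a b, ad a b = ad b a)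
    (hi : ∀ a, ad a a = false) : SimpleGraph (Fin vs.length) where
  Adj i j := ad vs[i] vs[j] = true
  symm := ⟨fun i j h => by rw [hs]; exact h⟩
  loopless := ⟨fun i h => by rw [hi] at h; exact absurd h (by simp)⟩

theorem adjMatrix_listGraph {Λ : Type} (vs : List Λ) (ad : Λ → Λ → Bool)
    (hs : ∀ a b, ad a b = ad b a) (hi : ∀ a, ad a a = false) :
    adjMatrix (listGraph vs ad hs hi) = vs.map (fun u => vs.map (fun w => ad u w)) := by
  unfold adjMatrix listGraph
  apply List.ext_getElem
  · simp
  · intro i h1 h2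
    simp only [List.getElem_ofFn, List.getElem_map]
    apply List.ext_getElem
    · simp
    · intro j h3 h4
      simp

theorem exists_equiv {V Λ : Type} (vs : List Λ) (hn : vs.Nodup) (c : V → Λ)
    (hc : Function.Injective c) (hmem : ∀ z, z ∈ vs ↔ ∃ x, c x = z) :
    ∃ e : Fin vs.length ≃ V, ∀ i, c (e i) = vs[i] := by
  have h1 : ∀ i : Fin vs.length, ∃ x, c x = vs[i] := fun i => (hmem _).1 (List.getElem_mem _)
  choose g hg using h1
  have hbij : Function.Bijective g := by
    constructor
    · intro i j hij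
      have h2 : vs[i] = vs[j] := by rw [← hg i, ← hg j, hij]
      exact Fin.ext ((List.Nodup.getElem_inj_iff hn).1 h2)
    · intro x
      obtain ⟨i, hi, hi'⟩ := List.getElem_of_mem ((hmem (c x)).2 ⟨x, rfl⟩)
      refine ⟨⟨i, hi⟩, hc ?_⟩
      rw [hg]
      exact hi'
  exact ⟨Equiv.ofBijective g hbij, hg⟩

theorem poly_product {α β γ : Type} [TEnc α] [TEnc β] [TEnc γ] {l : α → List β} {l' : α → List γ}
    (hl : Poly l) (hl' : Poly l') : Poly (fun a => (l a) ×ˢ (l' a)) :=
  (Poly.flatMap (F := fun a b => (l' a).map (fun c => (b, c))) hl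
    (Poly.map (l := fun p : α × β => l' p.1) (F := fun p c => (p.2, c))
      (hl'.comp (Poly.fst Poly.id))
      (Poly.pair (Poly.snd (Poly.fst Poly.id)) (Poly.snd Poly.id)))).congr fun a => rfl

end Pool.Agent.NPC.R671
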